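import Pool.Agent.Helper15.GS.GoalsE

/-! # GS GAV: the average of the trace is bounded -/

open Complex Metric Set Filter Topology MeasureTheory
open scoped ContDiff ComplexConjugate ComplexOrder Manifold Matrix

namespace Pool.Agent.Helper5.GS

open Pool.Agent.Helper95.Lin Pool.Agent.Helper16.Abund Pool.Agent.Helper92.Orb
  Pool.Agent.Helper10.SP Pool.Agent.Helper95.RK Pool.Agent.Helper57.HS
  Pool.Agent.Helper15.HS Pool.Agent.Helper15.GS

universe u

/-- Integrability of `κ g` for `g` continuous on `T`. -/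
theorem integrableOn_kap {n : ℕ} {T : Set (Cn n)} (hT : IsOpen T) {κ : Cn n → ℝ}
    (hκ : TestF T κ) {g : Cn n → ℝ} (hg : ContinuousOn g T) :
    IntegrableOn (fun x => κ x * g x) T := by
  have h1 : IntegrableOn (fun x => κ x * g x) (tsupport κ) :=
    ((hκ.1.continuous.continuousOn).mul (hg.mono hκ.2.2)).integrableOn_compact hκ.2.1
  refine h1.of_forall_sdiff_eq_zero hT.measurableSet fun x hx => ?_
  rw [image_eq_zero_of_notMem_tsupport hx.2, zero_mul]

theorem cont_det {n : ℕ} {T : Set (Cn n)} {Q : Cn n → Matrix (Fin n) (Fin n) ℂ}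
    (hQ : ∀ i j, ContDiffOn ℝ ∞ (fun x => Q x i j) T) :
    ContinuousOn (fun x => (Q x).det.re) T := by
  have h1 : ContinuousOn Q T :=
    continuousOn_pi.2 fun i => continuousOn_pi.2 fun j => (hQ i j).continuousOn
  exact Complex.continuous_re.comp_continuousOn ((continuous_id.matrix_det).comp_continuousOn h1)

/-- The pointwise estimate. -/
theorem gav_pt (hTRC : Pool.Agent.Helper95.HS.S_TRC) {n : ℕ}
    (Q H h : Matrix (Fin n) (Fin n) ℂ) (hQ : Q.PosDef) (hH : H.PosDef) (hh : h.PosDef) (c : ℝ)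
    (hc : 0 < c) (hcH : (H - (c : ℂ) • h).PosSemidef) :
    0 ≤ Q.det.re * (Matrix.trace (h * Q⁻¹)).re ∧
    Q.det.re * (Matrix.trace (h * Q⁻¹)).re ≤
      c⁻¹ * ((Q + ((1 : ℝ) : ℂ) • H).det.re - Q.det.re) := by
  have hd : 0 < Q.det.re := ((hTRC Q H hQ).1 hH.1).2.2
  have h0 : 0 ≤ (Matrix.trace (Q⁻¹ * h)).re := ((hTRC Q h hQ).2.1 hh.posSemidef).1
  have h1 := ((hTRC Q _ hQ).2.1 hcH).1
  have h2 := ((hTRC Q H hQ).2.2.2.2 1 zero_le_one hH.posSemidef).1
  rw [Matrix.mul_sub, Matrix.trace_sub, Matrix.mul_smul, Matrix.trace_smul, smul_eq_mul,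
    Complex.sub_re, Complex.re_ofReal_mul] at h1
  rw [Matrix.trace_mul_comm h]
  refine ⟨mul_nonneg hd.le h0, ?_⟩
  rw [← div_eq_inv_mul, le_div_iff₀ hc]
  have h3 : Q.det.re * (c * (Matrix.trace (Q⁻¹ * h)).re) ≤
      Q.det.re * (Matrix.trace (Q⁻¹ * H)).re :=
    mul_le_mul_of_nonneg_left (by linarith) hd.le
  nlinarith [h2, h3]

/-- GAV. -/
theorem gav (hCMPG : S_CMPG.{u}) (hGVB : S_GVB.{u}) (hTRC : Pool.Agent.Helper95.HS.S_TRC) :
    S_GAV.{u} := by
  intro n T G _ R H h hG k P hP κ hκ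
  obtain ⟨c, C, hc, -, hcmp⟩ := hCMPG T R H h hG.ket hG.her
  obtain ⟨hB, -, V0, V1, hV0, hV⟩ := hGVB T R H h hG k P hP κ hκ
  have hV01 : V0 ≤ V1 := (hV 0 le_rfl (by norm_num)).1.trans (hV 0 le_rfl (by norm_num)).2
  have hT : IsOpen T := hG.ket.et.isOpen
  refine ⟨V1 / (c * V0), div_nonneg (hV0.le.trans hV01) (mul_pos hc hV0).le, ?_⟩
  intro δ Q hδ hδ1 hQ
  have hk := hQ.1
  have hsm1 : ∀ i j, ContDiffOn ℝ ∞ (fun x => (Q x + ((1 : ℝ) : ℂ) • H x) i j) T := by
    intro i j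
    simp only [Matrix.add_apply, Complex.ofReal_one, one_smul]
    exact (hk.smooth i j).add (hG.ket.smooth i j)
  have hi0 : IntegrableOn (fun x => κ x * (Q x).det.re) T :=
    integrableOn_kap hT hκ.test (cont_det hk.smooth)
  have hi1 : IntegrableOn (fun x => κ x * (Q x + ((1 : ℝ) : ℂ) • H x).det.re) T :=
    integrableOn_kap hT hκ.test (cont_det hsm1)
  -- the volume
  have hvol : V0 ≤ Pool.Agent.Helper95.HS.vol T κ Q := by
    have h1 := hB δ Q hQ 0
    rw [add_zero] at h1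
    have h2 : Pool.Agent.Helper95.HS.vol T κ Q =
        ∫ x in T, κ x * (Q x + ((0 : ℝ) : ℂ) • H x).det.re := by
      unfold Pool.Agent.Helper95.HS.vol
      simp
    rw [h2, h1]
    exact (hV δ hδ.le (by linarith)).1
  have hV1 : ∫ x in T, κ x * (Q x + ((1 : ℝ) : ℂ) • H x).det.re ≤ V1 := by
    rw [hB δ Q hQ 1]
    exact (hV (δ + 1) (by linarith) (by linarith)).2
  have hpt := fun x (hx : x ∈ T) => gav_pt hTRC (Q x) (H x) (h x) (hk.posDef x hx)
    (hG.ket.posDef x hx) (hG.her.posDef x hx) c hc (hcmp x hx).1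
  have hmono : ∫ x in T, κ x * (Q x).det.re * (Matrix.trace (h x * (Q x)⁻¹)).re ≤
      ∫ x in T, c⁻¹ * (κ x * (Q x + ((1 : ℝ) : ℂ) • H x).det.re - κ x * (Q x).det.re) := by
    refine integral_mono_of_nonneg ?_ ((hi1.sub hi0).const_mul _) ?_
    · refine (ae_restrict_iff' hT.measurableSet).2 (Eventually.of_forall fun x hx => ?_)
      have := mul_nonneg (hκ.nonneg x) (hpt x hx).1
      simp only [Pi.zero_apply]
      linarith
    · refine (ae_restrict_iff' hT.measurableSet).2 (Eventually.of_forall fun x hx => ?_)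
      have := mul_le_mul_of_nonneg_left (hpt x hx).2 (hκ.nonneg x)
      simp only
      linarith
  rw [integral_const_mul, integral_sub hi1 hi0] at hmono
  have hvp : 0 < Pool.Agent.Helper95.HS.vol T κ Q := hV0.trans_le hvol
  have h5 : ∫ x in T, κ x * (Q x).det.re = Pool.Agent.Helper95.HS.vol T κ Q := rfl
  rw [h5] at hmono
  have hci : 0 < c⁻¹ := inv_pos.2 hc
  calc ∫ x in T, κ x * (Q x).det.re * (Matrix.trace (h x * (Q x)⁻¹)).re
      ≤ c⁻¹ * V1 := hmono.trans (mul_le_mul_of_nonneg_left (by linarith) hci.le)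
    _ = V1 / (c * V0) * V0 := by field_simp
    _ ≤ V1 / (c * V0) * Pool.Agent.Helper95.HS.vol T κ Q :=
      mul_le_mul_of_nonneg_left hvol (div_nonneg (hV0.le.trans hV01) (mul_pos hc hV0).le)

end Pool.Agent.Helper5.GS
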